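import Pool.Agent.Lib.helper14.FlowDec

set_option autoImplicit false

namespace Pool.Agent.Results.MP_08a145_lc.Cube

open MeasureTheory

/-- The Hilbert cube with the product topology. -/
abbrev Q : Type := ℕ → unitInterval

/-- The homeomorphisms of a compact Hausdorff space: the continuous bijections. -/
def Homeo (X : Type) [TopologicalSpace X] : Set C(X, X) := {f | Function.Bijective f}

/-- Christensen's Haar null sets in a group `G` of self-maps of `X`. -/
def HaarNull {X : Type} [TopologicalSpace X] {G : Set C(X, X)} (N : Set G) : Prop :=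
  ∃ B : Set G, N ⊆ B ∧ MeasurableSet[borel G] B ∧
    ∃ μ : @Measure G (borel G), IsProbabilityMeasure μ ∧ ∀ g h : G,
      μ {x | ∃ b ∈ B, x.1 = g.1.comp (b.1.comp h.1)} = 0

theorem result :
    ∃ A M : Set (Homeo Q), Disjoint A M ∧ A ∪ M = Set.univ ∧ HaarNull A ∧ IsMeagre M := by
  letI : MetricSpace Q := TopologicalSpace.metrizableSpaceMetric Q
  let R : C(ℝ × Q, Q) := ⟨fun p i => ⟨(p.2 i : ℝ) ^ Real.exp p.1,
      Real.rpow_nonneg (p.2 i).2.1 _,
      Real.rpow_le_one (p.2 i).2.1 (p.2 i).2.2 (Real.exp_pos _).le⟩,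
    continuous_pi fun i => Continuous.subtype_mk
      (Continuous.rpow (by fun_prop) (by fun_prop) fun _ => Or.inr (Real.exp_pos _)) _⟩
  have hR : ∀ z w x, R.curry (z + w) x = R.curry z (R.curry w x) := fun z w x => by
    funext i
    apply Subtype.ext
    show (x i : ℝ) ^ Real.exp (z + w) = ((x i : ℝ) ^ Real.exp w) ^ Real.exp z
    rw [← Real.rpow_mul (x i).2.1, Real.exp_add, mul_comm]
  have hR1 : ∀ x, R.curry 0 x = x := fun x => by
    funext i
    apply Subtype.ext
    show (x i : ℝ) ^ Real.exp 0 = x i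
    simp
  obtain ⟨M, N, h1, h0, h2, h3, h4⟩ := H14Flow.maps_dec (Homeo Q) (fun f hf => hf) R.curry
    R.curry.continuous hR (fun z => Function.bijective_iff_has_inverse.2 ⟨R.curry (-z),
      fun x => by rw [← hR, neg_add_cancel, hR1], fun x => by rw [← hR, add_neg_cancel, hR1]⟩)
    (fun t ht => ⟨fun _ => ⟨1 / 2, by norm_num, by norm_num⟩, fun h => by
      have e : (1 / 2 : ℝ) ^ Real.exp t = 1 / 2 := congrArg (fun x : Q => (x 0 : ℝ)) h
      have := Real.rpow_lt_rpow_of_exponent_gt (x := 1 / 2) (by norm_num) (by norm_num)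
        (Real.one_lt_exp_iff.2 (show 0 < t by linarith [ht.1]))
      rw [Real.rpow_one, e] at this
      exact lt_irrefl _ this⟩) _ rfl
  exact ⟨N, M, h0.symm, (Set.union_comm _ _).trans h1, ⟨N, subset_rfl, h3, h4⟩, h2⟩

end Pool.Agent.Results.MP_08a145_lc.Cube
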